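import Pool.Agent.Helper79.GL4.GoalsB

/-!
# Packet NAT of MP_27a5f8_al: naturality of the canonical constructions, and their lifts
-/

set_option linter.unusedVariables false

namespace GL4

namespace Hp85

open Module Submodule

section
variable {F : Type} [Field F] {W W' : Type} [AddCommGroup W] [Module F W] [AddCommGroup W']
    [Module F W']

/-- the order isomorphism of the subspace lattices -/
def Φ (φ : W ≃ₗ[F] W') : Submodule F W ≃o Submodule F W' := Submodule.orderIsoMapComap φ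

theorem Φ_apply (φ : W ≃ₗ[F] W') (Z : Submodule F W) : Φ φ Z = Z.map (φ : W →ₗ[F] W') := rfl

theorem Φ_im (φ : W ≃ₗ[F] W') (g : W ≃ₗ[F] W) (Z : Submodule F W) :
    Φ φ (im g Z) = im ((φ.symm.trans g).trans φ) (Φ φ Z) := by
  rw [Φ_apply, Φ_apply]
  ext v
  constructor
  · rintro ⟨w, ⟨u, hu, rfl⟩, rfl⟩
    refine ⟨φ u, ⟨u, hu, rfl⟩, ?_⟩
    show φ (g (φ.symm (φ u))) = φ (g u)
    rw [φ.symm_apply_apply]
  · rintro ⟨w, ⟨u, hu, rfl⟩, rfl⟩
    refine ⟨g u, ⟨u, hu, rfl⟩, ?_⟩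
    show φ (g u) = φ (g (φ.symm (φ u)))
    rw [φ.symm_apply_apply]

/-- invariance under the stabiliser -/
def Inv (G : Subgroup (W ≃ₗ[F] W)) (x Z : Submodule F W) : Prop :=
  ∀ g ∈ G, im g x = x → im g Z = Z

theorem inv_iff {φ : W ≃ₗ[F] W'} {G : Subgroup (W ≃ₗ[F] W)} {G' : Subgroup (W' ≃ₗ[F] W')}
    (h : Conj φ G G') (x Z : Submodule F W) : Inv G x Z ↔ Inv G' (Φ φ x) (Φ φ Z) := by
  constructor
  · intro hi g' hg' hx
    set g : W ≃ₗ[F] W := (φ.trans g').trans φ.symm with hg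
    have e : (φ.symm.trans g).trans φ = g' := by
      ext v
      simp [hg]
    have hgG : g ∈ G := by rw [h g, e]; exact hg'
    have hx' : im g x = x := by
      apply (Φ φ).injective
      rw [Φ_im, e, hx]
    have := hi g hgG hx'
    rw [← e, ← Φ_im, this]
  · intro hi g hg hx
    have hg' := (h g).1 hg
    have hx' : im ((φ.symm.trans g).trans φ) (Φ φ x) = Φ φ x := by rw [← Φ_im, hx]
    have := hi _ hg' hx'
    rw [← Φ_im] at this
    exact (Φ φ).injective this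

theorem map_sSup' (φ : W ≃ₗ[F] W') (S : Submodule F W → Prop) (S' : Submodule F W' → Prop)
    (h : ∀ Z, S Z ↔ S' (Φ φ Z)) : sSup {Z | S' Z} = Φ φ (sSup {Z | S Z}) := by
  rw [OrderIso.map_sSup, ← sSup_image]
  congr 1
  ext Z
  constructor
  · intro hZ
    refine ⟨(Φ φ).symm Z, ?_, (Φ φ).apply_symm_apply Z⟩
    show S ((Φ φ).symm Z)
    rw [h, (Φ φ).apply_symm_apply]
    exact hZ
  · rintro ⟨Y, hY, rfl⟩
    exact (h Y).1 hY

theorem map_sInf' (φ : W ≃ₗ[F] W') (S : Submodule F W → Prop) (S' : Submodule F W' → Prop)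
    (h : ∀ Z, S Z ↔ S' (Φ φ Z)) : sInf {Z | S' Z} = Φ φ (sInf {Z | S Z}) := by
  rw [OrderIso.map_sInf, ← sInf_image]
  congr 1
  ext Z
  constructor
  · intro hZ
    refine ⟨(Φ φ).symm Z, ?_, (Φ φ).apply_symm_apply Z⟩
    show S ((Φ φ).symm Z)
    rw [h, (Φ φ).apply_symm_apply]
    exact hZ
  · rintro ⟨Y, hY, rfl⟩
    exact (h Y).1 hY

theorem Bc_map {φ : W ≃ₗ[F] W'} {G : Subgroup (W ≃ₗ[F] W)} {G' : Subgroup (W' ≃ₗ[F] W')}
    (h : Conj φ G G') (x : Submodule F W) : Bc G' (Φ φ x) = Φ φ (Bc G x) := by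
  refine map_sSup' φ _ _ fun Z => ?_
  have h1 := inv_iff h x Z
  have h2 : Z ≠ ⊤ ↔ Φ φ Z ≠ ⊤ := by
    rw [Ne, Ne, not_iff_not]
    exact (map_eq_top_iff (Φ φ)).symm
  exact and_congr h2 h1

theorem Cc_map {φ : W ≃ₗ[F] W'} {G : Subgroup (W ≃ₗ[F] W)} {G' : Subgroup (W' ≃ₗ[F] W')}
    (h : Conj φ G G') (x : Submodule F W) : Cc G' (Φ φ x) = Φ φ (Cc G x) := by
  refine map_sInf' φ _ _ fun Z => ?_
  have h1 := inv_iff h x Z
  have h2 : Z ≠ ⊥ ↔ Φ φ Z ≠ ⊥ := by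
    rw [Ne, Ne, not_iff_not]
    exact (map_eq_bot_iff (Φ φ)).symm
  exact and_congr h2 h1

theorem Nc_map {φ : W ≃ₗ[F] W'} {G : Subgroup (W ≃ₗ[F] W)} {G' : Subgroup (W' ≃ₗ[F] W')}
    (h : Conj φ G G') (x : Submodule F W) : Nc G' (Φ φ x) = Φ φ (Nc G x) := by
  refine map_sInf' φ _ _ fun Z => ?_
  have h1 := inv_iff h x Z
  have h2 : x < Z ↔ Φ φ x < Φ φ Z := ((Φ φ).lt_iff_lt).symm
  exact and_congr h2 h1

theorem pt_map (φ : W ≃ₗ[F] W') (w : Submodule F W) : Pt (Φ φ w) ↔ Pt w := by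
  unfold Pt
  rw [Φ_apply, LinearEquiv.finrank_map_eq]

theorem Be_map {φ : W ≃ₗ[F] W'} {G : Subgroup (W ≃ₗ[F] W)} {G' : Subgroup (W' ≃ₗ[F] W')}
    (h : Conj φ G G') (i : ℕ) : ∀ x : Submodule F W,
    Be (Bc G') (Nc G') i (Φ φ x) = Φ φ (Be (Bc G) (Nc G) i x) := by
  induction i with
  | zero => intro x; exact ((Φ φ).map_top).symm
  | succ i ih =>
    cases i with
    | zero => intro x; exact Bc_map h x
    | succ i =>
      intro x
      show (⨅ w : {w : Submodule F W' // Pt w ∧ w ≤ Nc G' (Φ φ x)},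
          Be (Bc G') (Nc G') (i + 1) w.1) =
        Φ φ (⨅ w : {w : Submodule F W // Pt w ∧ w ≤ Nc G x}, Be (Bc G) (Nc G) (i + 1) w.1)
      rw [OrderIso.map_iInf]
      apply le_antisymm
      · refine le_iInf fun w => ?_
        have hw : Pt (Φ φ w.1) ∧ Φ φ w.1 ≤ Nc G' (Φ φ x) := by
          refine ⟨(pt_map φ w.1).2 w.2.1, ?_⟩
          rw [Nc_map h]
          exact (Φ φ).monotone w.2.2
        refine (iInf_le _ (⟨Φ φ w.1, hw⟩ : {w : Submodule F W' // Pt w ∧ w ≤ Nc G' (Φ φ x)})).trans ?_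
        exact (ih w.1).le
      · refine le_iInf fun w => ?_
        have hw : Pt ((Φ φ).symm w.1) ∧ (Φ φ).symm w.1 ≤ Nc G x := by
          refine ⟨?_, ?_⟩
          · rw [← pt_map φ, (Φ φ).apply_symm_apply]; exact w.2.1
          · rw [← (Φ φ).le_iff_le, (Φ φ).apply_symm_apply, ← Nc_map h]; exact w.2.2
        refine (iInf_le _ (⟨(Φ φ).symm w.1, hw⟩ :
          {w : Submodule F W // Pt w ∧ w ≤ Nc G x})).trans ?_
        rw [← ih ((Φ φ).symm w.1), (Φ φ).apply_symm_apply]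

end

end Hp85

open Hp85 in
/-- Packet NAT. -/
theorem nat_85 : NAT := by
  intro F _ W W' _ _ _ _ φ G G' h x
  exact ⟨Bc_map h x, Cc_map h x, Nc_map h x, fun i => Be_map h i x⟩

namespace Hp85

open Module Submodule

section
variable {F : Type} [Field F] {V : Type} [AddCommGroup V] [Module F V]

theorem inv_apply' (k : V ≃ₗ[F] V) (v : V) : k⁻¹ (k v) = v := k.symm_apply_apply v
theorem apply_inv' (k : V ≃ₗ[F] V) (v : V) : k (k⁻¹ v) = v := k.apply_symm_apply v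

theorem quot (K : Subgroup (V ≃ₗ[F] V)) {k : V ≃ₗ[F] V} (hk : k ∈ K) (P P' : Submodule F V)
    (h : im k P = P') : ∃ φ : (V ⧸ P) ≃ₗ[F] (V ⧸ P'),
      (∀ v, φ (P.mkQ v) = P'.mkQ (k v)) ∧ Conj φ (qGrp K P) (qGrp K P') := by
  set φ : (V ⧸ P) ≃ₗ[F] (V ⧸ P') := Submodule.Quotient.equiv P P' k h with hφ
  have h1 : ∀ v, φ (P.mkQ v) = P'.mkQ (k v) := fun v => rfl
  have h2 : ∀ v, φ.symm (P'.mkQ v) = P.mkQ (k⁻¹ v) := by
    intro v
    rw [LinearEquiv.symm_apply_eq, h1, apply_inv']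
  have h' : im k⁻¹ P' = P := im_inv_of_eq h
  refine ⟨φ, h1, fun g => ⟨?_, ?_⟩⟩
  · rintro ⟨k1, hk1, hP, hg⟩
    refine ⟨k * k1 * k⁻¹, K.mul_mem (K.mul_mem hk hk1) (K.inv_mem hk), ?_, fun v => ?_⟩
    · rw [im_mul, im_mul, h', hP, h]
    · show φ (g (φ.symm (P'.mkQ v))) = P'.mkQ (k (k1 (k⁻¹ v)))
      rw [h2, hg, h1]
  · rintro ⟨k2, hk2, hP, hg⟩
    refine ⟨k⁻¹ * k2 * k, K.mul_mem (K.mul_mem (K.inv_mem hk) hk2) hk, ?_, fun v => ?_⟩
    · rw [im_mul, im_mul, h, hP, h']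
    · show g (P.mkQ v) = P.mkQ (k⁻¹ (k2 (k v)))
      have h3 : φ (g (φ.symm (P'.mkQ (k v)))) = P'.mkQ (k2 (k v)) := hg (k v)
      rw [h2, inv_apply'] at h3
      apply φ.injective
      rw [h3, h1, apply_inv']

theorem subs (K : Subgroup (V ≃ₗ[F] V)) {k : V ≃ₗ[F] V} (hk : k ∈ K) (H H' : Submodule F V)
    (h : im k H = H') : ∃ φ : H ≃ₗ[F] H',
      (∀ v : H, (φ v : V) = k v) ∧ Conj φ (sGrp K H) (sGrp K H') := by
  subst h
  set φ : H ≃ₗ[F] (im k H : Submodule F V) := k.submoduleMap H with hφ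
  have h1 : ∀ v : H, (φ v : V) = k v := fun v => rfl
  have h2 : ∀ v : (im k H : Submodule F V), ((φ.symm v : H) : V) = k⁻¹ v := by
    intro v
    have := h1 (φ.symm v)
    rw [φ.apply_symm_apply] at this
    rw [this, inv_apply']
  refine ⟨φ, h1, fun g => ⟨?_, ?_⟩⟩
  · rintro ⟨k1, hk1, hP, hg⟩
    refine ⟨k * k1 * k⁻¹, K.mul_mem (K.mul_mem hk hk1) (K.inv_mem hk), ?_, fun v => ?_⟩
    · rw [im_mul, im_mul, im_inv_im, hP]
    · show ((φ (g (φ.symm v)) : (im k H : Submodule F V)) : V) = k (k1 (k⁻¹ v))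
      rw [h1, hg, h2]
  · rintro ⟨k2, hk2, hP, hg⟩
    refine ⟨k⁻¹ * k2 * k, K.mul_mem (K.mul_mem (K.inv_mem hk) hk2) hk, ?_, fun v => ?_⟩
    · rw [im_mul, im_mul, hP, im_inv_im]
    · show ((g v : H) : V) = k⁻¹ (k2 (k v))
      have h3 : ((φ (g (φ.symm (φ v))) : (im k H : Submodule F V)) : V) = k2 (φ v : V) :=
        hg (φ v)
      rw [φ.symm_apply_apply, h1, h1] at h3
      rw [← h3, inv_apply']

end

end Hp85

open Hp85 in
/-- Packet LFT. -/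
theorem lft_85 : LFT := by
  intro F _ D hD V _ _ K k hk
  refine ⟨fun P L => ?_, fun P P' h => quot K hk P P' h, fun H H' h => subs K hk H H' h⟩
  obtain ⟨φ, h1, h2⟩ := quot K hk P (im k P) rfl
  have h3 : (im k L).map (im k P).mkQ = (L.map P.mkQ).map (φ : (V ⧸ P) →ₗ[F] (V ⧸ im k P)) := by
    ext y
    constructor
    · rintro ⟨w, ⟨u, hu, rfl⟩, rfl⟩
      exact ⟨P.mkQ u, ⟨u, hu, rfl⟩, h1 u⟩
    · rintro ⟨w, ⟨u, hu, rfl⟩, rfl⟩
      exact ⟨k u, ⟨u, hu, rfl⟩, (h1 u).symm⟩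
  unfold lft
  rw [h3, hD _ _ φ _ _ h2]
  ext v
  constructor
  · rintro ⟨y, hy, hy'⟩
    refine ⟨k⁻¹ v, ?_, apply_inv' k v⟩
    have e : P.mkQ (k⁻¹ v) = y := by
      apply φ.injective
      rw [h1, apply_inv']
      exact hy'.symm
    have e2 := hy
    rw [← e] at e2
    exact e2
  · rintro ⟨w, hw, rfl⟩
    exact ⟨P.mkQ w, hw, h1 w⟩

end GL4
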